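import Pool.Agent.helper92.RC.Spec

/-!
# Row rc:FT: nontrivial normal subgroups of non-commutative free groups are not commutative (project RC, MP_cf13c7_al)
-/

set_option autoImplicit false

namespace Pool.Agent.helper92.RC

open scoped commutatorElement

universe u

/-- A commutative free group is cyclic. -/
theorem FT_cyc (N : Type u) [Group N] [IsFreeGroup N] (h : ∀ x y : N, x * y = y * x) :
    ∃ v : N, ∀ x : N, ∃ k : ℤ, x = v ^ k := by
  classical
  have hsub : ∀ a b : IsFreeGroup.Generators N, a = b := by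
    intro a b
    by_contra hab
    have hba : ¬ b = a := fun h' => hab h'.symm
    have h1 := congrArg (IsFreeGroup.lift (fun c : IsFreeGroup.Generators N =>
      (if c = a then Equiv.swap 0 1 else if c = b then Equiv.swap 1 2 else 1 : Equiv.Perm (Fin 3))))
      (h (IsFreeGroup.of a) (IsFreeGroup.of b))
    rw [map_mul, map_mul, IsFreeGroup.lift_of, IsFreeGroup.lift_of] at h1
    rw [if_pos rfl, if_neg hba, if_pos rfl] at h1
    revert h1
    decide
  have hcl := FreeGroup.closure_range_of (IsFreeGroup.Generators N)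
  rcases isEmpty_or_nonempty (IsFreeGroup.Generators N) with hE | ⟨⟨a⟩⟩
  · refine ⟨1, fun x => ⟨0, ?_⟩⟩
    have h2 : IsFreeGroup.toFreeGroup N x ∈ Subgroup.closure (Set.range (FreeGroup.of (α := IsFreeGroup.Generators N))) := by
      rw [hcl]; exact Subgroup.mem_top _
    rw [Set.range_eq_empty, Subgroup.closure_empty, Subgroup.mem_bot] at h2
    rw [zpow_zero]
    apply (IsFreeGroup.toFreeGroup N).injective
    rw [h2, map_one]
  · refine ⟨(IsFreeGroup.toFreeGroup N).symm (FreeGroup.of a), fun x => ?_⟩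
    have h2 : IsFreeGroup.toFreeGroup N x ∈ Subgroup.closure (Set.range (FreeGroup.of (α := IsFreeGroup.Generators N))) := by
      rw [hcl]; exact Subgroup.mem_top _
    have h3 : Subgroup.closure (Set.range (FreeGroup.of (α := IsFreeGroup.Generators N))) ≤
        Subgroup.zpowers (FreeGroup.of a) := by
      rw [Subgroup.closure_le]
      rintro _ ⟨c, rfl⟩
      rw [hsub c a]
      exact Subgroup.mem_zpowers _
    obtain ⟨k, hk⟩ := Subgroup.mem_zpowers_iff.1 (h3 h2)
    refine ⟨k, ?_⟩
    apply (IsFreeGroup.toFreeGroup N).injective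
    rw [map_zpow, MulEquiv.apply_symm_apply, hk]

theorem FT : CYC_stmt.{u} → TOR_stmt.{u} → FZ_stmt.{u} → FT_stmt.{u} := by
  intro _ hTOR hFZ F _ _ P N hP hNP hconj hN
  by_contra hcom
  have hcom' : ∀ x ∈ N, ∀ y ∈ N, x * y = y * x := by
    intro x hx y hy
    by_contra h
    exact hcom ⟨x, hx, y, hy, h⟩
  obtain ⟨v', hv'⟩ := FT_cyc N (fun x y => Subtype.ext (hcom' x.1 x.2 y.1 y.2))
  obtain ⟨v, hv⟩ : ∃ v : F, v = (v' : F) := ⟨_, rfl⟩
  have hvN : v ∈ N := by rw [hv]; exact v'.2
  have hcyc : ∀ x ∈ N, ∃ k : ℤ, x = v ^ k := by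
    intro x hx
    obtain ⟨k, hk⟩ := hv' ⟨x, hx⟩
    refine ⟨k, ?_⟩
    have := congrArg Subtype.val hk
    rw [hv]
    simpa using this
  have hv1 : v ≠ 1 := by
    intro h1
    apply hN
    rw [Subgroup.eq_bot_iff_forall]
    intro x hx
    obtain ⟨k, hk⟩ := hcyc x hx
    rw [hk, h1, one_zpow]
  obtain ⟨y, hyP, hy⟩ := hFZ F P hP v (hNP hvN) hv1
  obtain ⟨a, ha⟩ := hcyc (y * v * y⁻¹) (hconj v hvN y hyP)
  obtain ⟨b, hb⟩ := hcyc (y⁻¹ * v * y) (by
    have := hconj v hvN y⁻¹ (P.inv_mem hyP)
    rwa [inv_inv] at this)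
  have hab : v = v ^ (a * b) := by
    have h1 : y * v ^ b * y⁻¹ = v := by rw [← hb]; group
    have h2 : y * v ^ b * y⁻¹ = (y * v * y⁻¹) ^ b := by rw [conj_zpow]
    rw [zpow_mul, ← ha, ← h2, h1]
  have hab1 : a * b = 1 := by
    by_contra hne
    apply hv1
    apply hTOR F v (a * b - 1)
    · rw [zpow_sub, ← hab, zpow_one, mul_inv_cancel]
    · omega
  rcases Int.eq_one_or_neg_one_of_mul_eq_one hab1 with h1 | h1
  · apply hy
    rw [commutatorElement_def, ha, h1, zpow_one, mul_inv_cancel]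
  · rw [h1, zpow_neg_one] at ha
    -- `y² ` commutes with `y` and `v`
    have hyv : y ^ 2 * v = v * y ^ 2 := by
      have h2 : y ^ 2 * v * (y ^ 2)⁻¹ = v := by
        have h3 : y ^ 2 * v * (y ^ 2)⁻¹ = y * (y * v * y⁻¹) * y⁻¹ := by
          simp only [pow_two, mul_inv_rev, mul_assoc]
        have h4 : y * v⁻¹ * y⁻¹ = (y * v * y⁻¹)⁻¹ := by group
        rw [h3, ha, h4, ha, inv_inv]
      calc y ^ 2 * v = (y ^ 2 * v * (y ^ 2)⁻¹) * y ^ 2 := by rw [inv_mul_cancel_right]
        _ = v * y ^ 2 := by rw [h2]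
    have hle : Subgroup.closure {y, v} ≤ Subgroup.centralizer {y ^ 2} := by
      rw [Subgroup.closure_le]
      intro z hz
      rw [SetLike.mem_coe, Subgroup.mem_centralizer_iff]
      intro t ht
      rw [Set.mem_singleton_iff] at ht
      rw [ht]
      rcases hz with hz | hz
      · rw [hz]; group
      · rw [Set.mem_singleton_iff] at hz
        rw [hz]; exact hyv
    have hym : y ∈ Subgroup.closure {y, v} := Subgroup.subset_closure (by simp)
    have hvm : v ∈ Subgroup.closure {y, v} := Subgroup.subset_closure (by simp)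
    have hnc : NonComm (Subgroup.closure {y, v}) := by
      refine ⟨y, hym, v, hvm, fun h2 => hy ?_⟩
      rw [commutatorElement_def, h2]; group
    have hy2 : y ^ 2 = 1 := by
      by_contra h2
      obtain ⟨z, hz, hz'⟩ := hFZ F (Subgroup.closure {y, v}) hnc (y ^ 2) (Subgroup.pow_mem _ hym 2) h2
      apply hz'
      have h3 := Subgroup.mem_centralizer_iff.1 (hle hz) (y ^ 2) (Set.mem_singleton _)
      rw [commutatorElement_def, ← h3]; group
    have hy1 : y = 1 := hTOR F y 2 (by exact_mod_cast hy2) (by norm_num)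
    apply hy
    rw [hy1, commutatorElement_one_left]

end Pool.Agent.helper92.RC
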